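import Pool.Agent.helper28.Cosine.Main
import Pool.Agent.helper28.Cosine.Exist

/-!
Vanishing of the cosine transform off an open Schubert cell.

For every `2 ≤ k ≤ n - 2`, every Euclidean space `V` of dimension `n` (for instance `R^n`) and
every `F ∈ Gr_{n-k}(V)` there is a smooth (indeed polynomial in the orthogonal projection)
function `f` on `Gr_k(V)` whose cosine transform vanishes exactly at the subspaces `E` meeting
`F` nontrivially, and hence is not identically zero.
-/

open MeasureTheory Module RealInnerProductSpace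

namespace Pool.Agent.Results.MP_a64afa_an.CosineVanishing

open Pool.Agent.helper28.Cosine

/-- The open Schubert cell `Σ^k_F = {E ∈ Gr_k(V) : E ∩ F = {0}}`. -/
def schubertCell {V : Type*} [NormedAddCommGroup V] [InnerProductSpace ℝ V] {k : ℕ}
    (F : Submodule ℝ V) : Set (Gr V k) := {E | E.carrier ⊓ F = ⊥}

theorem result (V : Type*) [NormedAddCommGroup V] [InnerProductSpace ℝ V] [FiniteDimensional ℝ V]
    (n k : ℕ) (hn : finrank ℝ V = n) (hk : 2 ≤ k) (hkn : k + 2 ≤ n) :
    (∃ μ : Measure (Gr V k), IsInvariantProb μ) ∧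
    ∀ μ : Measure (Gr V k), IsInvariantProb μ →
      ∀ F : Submodule ℝ V, finrank ℝ F = n - k →
        ∃ f : Gr V k → ℝ, IsSmooth f ∧
          (∀ E : Gr V k, cosTransform μ f E = 0 ↔ E ∉ schubertCell F) ∧
          (∃ E : Gr V k, cosTransform μ f E ≠ 0) := by
  have hkn' : k ≤ n := by omega
  refine ⟨exists_invariant hn hkn', ?_⟩
  intro μ hμ F hF
  -- the complementary subspace
  have hFo : finrank ℝ (Fᗮ : Submodule ℝ V) = k := by
    have h1 := Submodule.finrank_add_finrank_orthogonal F
    rw [hF, hn] at h1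
    omega
  let E₀ : Gr V k := ⟨Fᗮ, hFo⟩
  obtain ⟨e, he⟩ := exists_extend hn hkn' (fr_orthonormal E₀)
  have he' : sub e (K0 hkn') = fr E₀ := by rw [sub_K0, he]
  obtain ⟨g, hg⟩ := exists_solution (n := n) (k := k)
    (fun J => if J = K0 hkn' then (1 : ℝ) else 0)
  refine ⟨fun E => ∑ I, g I * (pc E (sub e I) * pc E (sub e I)), isSmooth_combination e g, ?_, ?_⟩
  all_goals
    have hC : ∀ E' : Gr V k,
        cosTransform μ (fun E => ∑ I, g I * (pc E (sub e I) * pc E (sub e I))) E' =
          v0 μ (sub e (K0 hkn')) * absCos E'.carrier E₀.carrier ^ 2 := by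
      intro E'
      rw [cosTransform_formula hμ hn hkn' e g E']
      congr 1
      simp only [hg]
      rw [Finset.sum_eq_single (K0 hkn')]
      · rw [absCos_eq E' E₀ (fr_orthonormal E₀) (span_fr E₀), sq_abs, he']
        simp only [if_true]
        ring
      · intro J _ hJ
        simp [hJ]
      · intro h; exact absurd (Finset.mem_univ _) h
    have hv : 0 < v0 μ (sub e (K0 hkn')) := v0_pos hμ hn hkn' (sub_orthonormal e _)
  · intro E
    rw [hC, mul_eq_zero, or_iff_right hv.ne', sq_eq_zero_iff, absCos_eq_zero_iff E E₀ F rfl]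
    rfl
  · refine ⟨E₀, ?_⟩
    rw [hC]
    have h0 : absCos E₀.carrier E₀.carrier ≠ 0 := by
      intro h0
      rw [absCos_eq_zero_iff E₀ E₀ F rfl] at h0
      apply h0
      have : (E₀.carrier : Submodule ℝ V) ⊓ F = F ⊓ Fᗮ := inf_comm _ _
      rw [this]
      exact Submodule.inf_orthogonal_eq_bot F
    exact mul_ne_zero hv.ne' (pow_ne_zero 2 h0)

end Pool.Agent.Results.MP_a64afa_an.CosineVanishing
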